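import Mathlib

open scoped ContDiff Topology
open Filter Set

namespace Pool.Agent.H.MP_17a4b7_gt

variable {E F G : Type*} [NormedAddCommGroup E] [NormedSpace ℝ E] [NormedAddCommGroup F]
  [NormedSpace ℝ F] [NormedAddCommGroup G] [NormedSpace ℝ G]

theorem two_le : (2 : WithTop ℕ∞) ≤ ∞ := by
  exact WithTop.coe_le_coe.2 (le_top : (2 : ℕ∞) ≤ ⊤)

theorem fd_app {c : E → F →L[ℝ] G} {u : E → F} {x : E} (hc : DifferentiableAt ℝ c x)
    (hu : DifferentiableAt ℝ u x) (v : E) :
    fderiv ℝ (fun y => c y (u y)) x v = fderiv ℝ c x v (u x) + c x (fderiv ℝ u x v) := by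
  rw [fderiv_clm_apply hc hu]
  simp [add_comm]

theorem fd_const {c : E → F →L[ℝ] G} {x : E} (hc : DifferentiableAt ℝ c x) (v : E) (w : F) :
    fderiv ℝ c x v w = fderiv ℝ (fun y => c y w) x v := by
  rw [fd_app hc (differentiableAt_const w)]
  simp

/-- vanishing of the Nijenhuis torsion at a point, in terms of the derivative of `L` -/
def NijAt (L : E → E →L[ℝ] E) (x : E) : Prop :=
  ∀ v w, fderiv ℝ L x (L x v) w - fderiv ℝ L x (L x w) v -
    L x (fderiv ℝ L x v w - fderiv ℝ L x w v) = 0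

theorem NijAt.congr {L K : E → E →L[ℝ] E} {x : E} (h : NijAt K x) (e : L =ᶠ[𝓝 x] K) :
    NijAt L x := by
  intro v w
  rw [e.fderiv_eq, e.eq_of_nhds]
  exact h v w

theorem nijAt_zero (x : E) : NijAt (fun _ : E => (0 : E →L[ℝ] E)) x := by
  intro v w
  simp

theorem NijAt.add_const {K : E → E →L[ℝ] E} {x : E} (h : NijAt K x) (c : ℝ) :
    NijAt (fun y => K y + c • ContinuousLinearMap.id ℝ E) x := by
  intro v w
  have := h v w
  rw [fderiv_add_const]
  simp only [ContinuousLinearMap.add_apply, ContinuousLinearMap.smul_apply,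
    ContinuousLinearMap.id_apply, map_add, map_smul]
  linear_combination (norm := module) this

theorem nijAt_smul_id {f : E → ℝ} {x : E} (hf : DifferentiableAt ℝ f x) :
    NijAt (fun y => f y • ContinuousLinearMap.id ℝ E) x := by
  intro v w
  rw [(hf.hasFDerivAt.smul_const (ContinuousLinearMap.id ℝ E)).fderiv]
  simp only [ContinuousLinearMap.smul_apply, ContinuousLinearMap.id_apply, map_smul,
    ContinuousLinearMap.smulRight_apply, smul_eq_mul]
  module

theorem NijAt.add {M K : E → E →L[ℝ] E} {x : E} (hM : NijAt M x) (hK : NijAt K x)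
    (dM : DifferentiableAt ℝ M x) (dK : DifferentiableAt ℝ K x)
    (h1 : ∀ v w, fderiv ℝ M x (K x v) w = 0) (h2 : ∀ v w, fderiv ℝ K x (M x v) w = 0)
    (h3 : ∀ v w, M x (fderiv ℝ K x v w) = 0) (h4 : ∀ v w, K x (fderiv ℝ M x v w) = 0) :
    NijAt (fun y => M y + K y) x := by
  intro v w
  have a := hM v w
  have b := hK v w
  rw [fderiv_fun_add dM dK]
  simp only [ContinuousLinearMap.add_apply, map_add, map_sub, h1, h2, h3, h4] at a b ⊢
  linear_combination (norm := module) a + b

/-- the pull-back of a field along a map with a flat family of lifts -/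
noncomputable def pull (H : E → F →L[ℝ] E) (K : F → F →L[ℝ] F) (π : E → F) (z : E) :
    E →L[ℝ] E := (H z).comp ((K (π z)).comp (fderiv ℝ π z))

theorem nijAt_pull {H : E → F →L[ℝ] E} {K : F → F →L[ℝ] F} {π : E → F} {z : E}
    (hπ : ContDiffAt ℝ ∞ π z) (hH : DifferentiableAt ℝ H z) (hK : DifferentiableAt ℝ K (π z))
    (hN : NijAt K (π z)) (hid : ∀ᶠ y in 𝓝 z, ∀ u, fderiv ℝ π y (H y u) = u)
    (hflat : ∀ u u', fderiv ℝ H z (H z u) u' = fderiv ℝ H z (H z u') u) :
    NijAt (pull H K π) z := by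
  have dπ : DifferentiableAt ℝ π z := hπ.differentiableAt (by simp)
  have dP : DifferentiableAt ℝ (fderiv ℝ π) z :=
    (hπ.fderiv_right (m := ∞) (by simp)).differentiableAt (by simp)
  have dKπ : DifferentiableAt ℝ (fun y => K (π y)) z := hK.comp z dπ
  have hsym : ∀ a b, fderiv ℝ (fderiv ℝ π) z a b = fderiv ℝ (fderiv ℝ π) z b a :=
    fun a b => (hπ.isSymmSndFDerivAt (by simp; exact two_le)) a b
  have dL : DifferentiableAt ℝ (pull H K π) z := hH.clm_comp (dKπ.clm_comp dP)
  have hD : ∀ a b, fderiv ℝ (pull H K π) z a b =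
      fderiv ℝ H z a (K (π z) (fderiv ℝ π z b)) +
      H z (fderiv ℝ K (π z) (fderiv ℝ π z a) (fderiv ℝ π z b) +
        K (π z) (fderiv ℝ (fderiv ℝ π) z a b)) := by
    intro a b
    have d1 : DifferentiableAt ℝ (fun y => fderiv ℝ π y b) z :=
      dP.clm_apply (differentiableAt_const b)
    rw [fd_const dL]
    show fderiv ℝ (fun y => H y (K (π y) (fderiv ℝ π y b))) z a = _
    rw [fd_app hH (dKπ.clm_apply d1), fd_app dKπ d1, ← fd_const dP]
    have : fderiv ℝ (fun y => K (π y)) z = (fderiv ℝ K (π z)).comp (fderiv ℝ π z) :=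
      fderiv_comp z hK dπ
    rw [this]
    rfl
  have h0 : ∀ u, fderiv ℝ π z (H z u) = u := hid.self_of_nhds
  have h1 : ∀ a u, fderiv ℝ π z (fderiv ℝ H z a u) = -fderiv ℝ (fderiv ℝ π) z a (H z u) := by
    intro a u
    have e : (fun y => fderiv ℝ π y (H y u)) =ᶠ[𝓝 z] fun _ => u := hid.mono fun y hy => hy u
    have : fderiv ℝ (fun y => fderiv ℝ π y (H y u)) z a = fderiv ℝ (fun _ => u) z a := by
      rw [e.fderiv_eq]
    rw [fd_app dP (hH.clm_apply (differentiableAt_const u)), ← fd_const hH] at this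
    simp only [fderiv_fun_const, Pi.zero_apply, ContinuousLinearMap.zero_apply] at this
    linear_combination (norm := module) this
  intro v w
  have hL : ∀ a, pull H K π z a = H z (K (π z) (fderiv ℝ π z a)) := fun a => rfl
  have key := congrArg (H z) (hN (fderiv ℝ π z v) (fderiv ℝ π z w))
  simp only [hD, hL, map_add, map_sub, h0, h1, map_neg, map_zero] at key ⊢
  rw [hflat (K (π z) (fderiv ℝ π z v)), hsym v w, hsym v (H z _), hsym w (H z _)]
  linear_combination (norm := module) key

theorem contDiffAt_pull {H : E → F →L[ℝ] E} {K : F → F →L[ℝ] F} {π : E → F} {z : E}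
    (hπ : ContDiffAt ℝ ∞ π z) (hH : ContDiffAt ℝ ∞ H z) (hK : ContDiffAt ℝ ∞ K (π z)) :
    ContDiffAt ℝ ∞ (pull H K π) z :=
  hH.clm_comp ((hK.comp z hπ).clm_comp (hπ.fderiv_right (m := ∞) (by simp)))

/-- smooth Nijenhuis field -/
def Good (L : E → E →L[ℝ] E) : Prop := ContDiff ℝ ∞ L ∧ ∀ x, NijAt L x

/-- `L` agrees on every bounded set with a smooth Nijenhuis field of bounded support -/
def Cpt (L : E → E →L[ℝ] E) : Prop :=
  ∀ S : Set E, Bornology.IsBounded S → ∃ K, Good K ∧ Bornology.IsBounded (Function.support K) ∧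
    EqOn K L S

theorem Cpt.shift [FiniteDimensional ℝ E] {L : E → E →L[ℝ] E} (h : Cpt L) (c : ℝ) :
    Cpt (fun x => L x + c • ContinuousLinearMap.id ℝ E) := by
  intro S hS
  obtain ⟨K, hK, hb, he⟩ := h S hS
  obtain ⟨R, hR0, hR⟩ := (hS.union hb).subset_ball_lt 0 (0 : E)
  let χ : ContDiffBump (0 : E) := ⟨R + 1, R + 2, by linarith, by linarith⟩
  refine ⟨fun x => K x + (c * χ x) • ContinuousLinearMap.id ℝ E,
    ⟨hK.1.add ((contDiff_const.mul χ.contDiff).smul contDiff_const), fun x => ?_⟩, ?_,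
    fun x hx => ?_⟩
  · by_cases hx : ‖x‖ < R + 1
    · refine ((hK.2 x).add_const c).congr ?_
      filter_upwards [χ.eventuallyEq_one_of_mem_ball (x := x) (by simpa using hx)] with y hy
      simp [hy]
    · refine (nijAt_smul_id (f := fun y => c * χ y)
        ((contDiff_const.mul (χ.contDiff (n := 1))).differentiable (by simp) x)).congr ?_
      have : ∀ᶠ y in 𝓝 x, R < ‖y‖ := continuous_norm.continuousAt.eventually_const_lt (by linarith)
      filter_upwards [this] with y hy
      have : K y = 0 := by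
        by_contra h0
        have := hR (Or.inr h0)
        simp at this
        linarith
      simp [this]
  · refine (Metric.isBounded_ball (x := (0 : E)) (r := R + 2)).subset fun x hx => ?_
    by_contra h0
    have h1 : R + 2 ≤ ‖x‖ := by simpa using h0
    have h2 : K x = 0 := by
      by_contra h0
      have := hR (Or.inr h0)
      simp at this
      linarith
    have h3 : χ x = 0 := χ.zero_of_le_dist (by simpa using h1)
    exact hx (by simp [h2, h3])
  · have := hR (Or.inl hx)
    have h3 : χ x = 1 := χ.one_of_mem_closedBall (by simp at this ⊢; show ‖x‖ ≤ R + 1; linarith)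
    simp [h3, he hx]

theorem Cpt.perturb {L L' : E → E →L[ℝ] E} (h : Cpt L) (hL : ContDiff ℝ ∞ L) (hL' : Good L')
    (hb : Bornology.IsBounded (Function.support fun x => L' x - L x)) : Cpt L' := by
  intro S hS
  obtain ⟨R, hR0, hR⟩ := (hS.union hb).subset_ball_lt 0 (0 : E)
  obtain ⟨K, hK, hKb, he⟩ := h (Metric.ball 0 (R + 1)) Metric.isBounded_ball
  refine ⟨fun x => K x + (L' x - L x), ⟨hK.1.add (hL'.1.sub hL), fun x => ?_⟩, ?_, fun x hx => ?_⟩
  · by_cases hx : ‖x‖ < R + 1
    · refine (hL'.2 x).congr ?_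
      filter_upwards [Metric.isOpen_ball.mem_nhds (show x ∈ Metric.ball 0 (R + 1) by simpa)]
        with y hy
      simp [he hy]
    · refine (hK.2 x).congr ?_
      have : ∀ᶠ y in 𝓝 x, R < ‖y‖ := continuous_norm.continuousAt.eventually_const_lt (by linarith)
      filter_upwards [this] with y hy
      have : L' y - L y = 0 := by
        by_contra h0
        have := hR (Or.inr h0)
        simp at this
        linarith
      simp [this]
  · refine (hKb.union hb).subset fun x hx => ?_
    by_contra h0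
    simp only [mem_union, Function.mem_support, not_or, not_not] at h0
    exact hx (by simp [h0.1, h0.2])
  · have := hR (Or.inl hx)
    simp [he (Metric.ball_subset_ball (by linarith) this)]

theorem Good.equiv {L : F → F →L[ℝ] F} (h : Good L) (e : E ≃L[ℝ] F) :
    Good (pull (fun _ => (e.symm : F →L[ℝ] E)) L e) :=
  ⟨contDiff_iff_contDiffAt.2 fun z => contDiffAt_pull e.contDiff.contDiffAt contDiffAt_const
    h.1.contDiffAt, fun z => nijAt_pull e.contDiff.contDiffAt (differentiableAt_const _)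
      (h.1.differentiable (by simp) _) (h.2 _) (Eventually.of_forall fun y u => by rw [e.fderiv]; simp)
      (fun u u' => by simp)⟩

theorem Cpt.equiv {L : F → F →L[ℝ] F} (h : Cpt L) (e : E ≃L[ℝ] F) :
    Cpt (pull (fun _ => (e.symm : F →L[ℝ] E)) L e) := by
  intro S hS
  obtain ⟨K, hK, hb, he⟩ := h (e '' S) ((e : E →L[ℝ] F).lipschitz.isBounded_image hS)
  refine ⟨_, hK.equiv e, ((e.symm : F →L[ℝ] E).lipschitz.isBounded_image hb).subset
    fun x hx => ⟨e x, fun h0 => hx (by simp [pull, h0]), by simp⟩, fun x hx => ?_⟩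
  simp [pull, he (mem_image_of_mem e hx)]

end Pool.Agent.H.MP_17a4b7_gt
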