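import Pool.Agent.H.MP_17a4b7_gt.A

open scoped ContDiff Topology
open Filter Set

namespace Pool.Agent.H.MP_17a4b7_gt

variable {E F : Type*} [NormedAddCommGroup E] [NormedSpace ℝ E] [NormedAddCommGroup F]
  [NormedSpace ℝ F]

theorem hasDerivAt_glue (u : ℝ) : HasDerivAt expNegInvGlue (u⁻¹ ^ 2 * expNegInvGlue u) u := by
  simpa using expNegInvGlue.hasDerivAt_polynomial_eval_inv_mul 1 u

theorem exists_g {D : ℝ} (hD : 0 ≤ D) : ∃ g : ℝ → ℝ, ContDiff ℝ ∞ g ∧ (∀ s ≤ D, g s = s) ∧
    (∀ s, deriv g s = 0 → D ≤ g s) ∧ (∀ s, g s ≤ D + 1) ∧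
    ∀ s B, 0 ≤ B → -B ≤ g s → |s| ≤ 2 * D + 1 + B := by
  let g : ℝ → ℝ := fun s => s + Real.smoothTransition (s - D) * (2 * D + 1 - 2 * s)
  have h1 : ∀ s ≤ D, g s = s := fun s hs => by
    simp [g, Real.smoothTransition.zero_of_nonpos (sub_nonpos.2 hs)]
  have h2 : ∀ s, D + 1 ≤ s → g s = 2 * D + 1 - s := fun s hs => by
    simp only [g, Real.smoothTransition.one_of_one_le (show 1 ≤ s - D by linarith)]
    ring
  have h3 : ∀ s, D ≤ s → s ≤ D + 1 → D ≤ g s ∧ g s ≤ D + 1 := fun s h h' => by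
    have a := Real.smoothTransition.nonneg (s - D)
    have b := Real.smoothTransition.le_one (s - D)
    simp only [g]
    constructor <;> nlinarith
  refine ⟨g, by
    refine contDiff_id.add ((Real.smoothTransition.contDiff.comp
      (contDiff_id.sub contDiff_const)).mul (by fun_prop)), h1, fun s hs => ?_, fun s => ?_,
    fun s B hB hs => ?_⟩
  · rcases lt_or_ge s D with h | h
    · have : g =ᶠ[𝓝 s] id := (eventually_lt_nhds h).mono fun y hy => h1 y hy.le
      rw [this.deriv_eq] at hs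
      simp at hs
    · rcases le_or_gt s (D + 1) with h' | h'
      · exact (h3 s h h').1
      · have : g =ᶠ[𝓝 s] fun y => 2 * D + 1 - y := (eventually_gt_nhds h').mono fun y hy => h2 y hy.le
        rw [this.deriv_eq, deriv_const_sub] at hs
        simp at hs
  · rcases le_total s D with h | h
    · rw [h1 s h]; linarith
    · rcases le_total s (D + 1) with h' | h'
      · exact (h3 s h h').2
      · rw [h2 s h']; linarith
  · rw [abs_le]
    rcases le_total s D with h | h
    · rw [h1 s h] at hs; constructor <;> linarith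
    · rcases le_total s (D + 1) with h' | h'
      · constructor <;> linarith
      · rw [h2 s h'] at hs; constructor <;> linarith

theorem exists_h [FiniteDimensional ℝ F] {S : Set F} (hS : Bornology.IsBounded S) :
    ∃ h : F → ℝ, ContDiff ℝ ∞ h ∧ (∀ y, 0 ≤ h y) ∧ (∀ y ∈ S, h y = 0) ∧
    (∀ y, fderiv ℝ h y y = 0 → h y = 0) ∧ ∀ B, Bornology.IsBounded {y | h y ≤ B} := by
  let T := toEuclidean (E := F)
  obtain ⟨R, hR0, hR⟩ := (T.toContinuousLinearMap.lipschitz.isBounded_image hS).subset_ball_lt 0 0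
  let q : F → ℝ := fun y => ‖T y‖ ^ 2
  have hq : ContDiff ℝ ∞ q := (contDiff_norm_sq ℝ).comp T.contDiff
  have hq0 : ∀ y, 0 ≤ q y := fun y => sq_nonneg _
  have hq' : ∀ y, fderiv ℝ q y y = 2 * q y := fun y => by
    have := ((hasStrictFDerivAt_norm_sq (T y)).hasFDerivAt.comp y T.hasFDerivAt).fderiv
    have e : fderiv ℝ q y = _ := this
    rw [e]
    simp [q]
  refine ⟨fun y => q y * expNegInvGlue (q y - R ^ 2),
    hq.mul (expNegInvGlue.contDiff.comp (hq.sub contDiff_const)),
    fun y => mul_nonneg (hq0 y) (expNegInvGlue.nonneg _), fun y hy => ?_, fun y hy => ?_,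
    fun B => ?_⟩
  · have : ‖T y‖ < R := by simpa using hR (mem_image_of_mem _ hy)
    have h2 : q y - R ^ 2 ≤ 0 := by
      simp only [q]
      nlinarith [norm_nonneg (T y)]
    simp [expNegInvGlue.zero_of_nonpos h2]
  · have d := (hq.differentiable (by simp) y).hasFDerivAt
    have := (d.mul ((hasDerivAt_glue (q y - R ^ 2)).comp_hasFDerivAt y (d.sub_const (R ^ 2)))).fderiv
    have e : fderiv ℝ (fun y => q y * expNegInvGlue (q y - R ^ 2)) y = _ := this
    rw [e] at hy
    simp only [ContinuousLinearMap.add_apply, ContinuousLinearMap.smul_apply, hq', smul_eq_mul,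
      Function.comp] at hy
    have a := hq0 y
    have b := expNegInvGlue.nonneg (q y - R ^ 2)
    have c : 0 ≤ q y * ((q y - R ^ 2)⁻¹ ^ 2 * expNegInvGlue (q y - R ^ 2) * (2 * q y)) := by
      positivity
    nlinarith [mul_nonneg a b]
  · have e1 := expNegInvGlue.pos_of_pos one_pos
    have hb : Bornology.IsBounded (Metric.closedBall (0 : EuclideanSpace ℝ (Fin (Module.finrank ℝ F)))
        (R ^ 2 + 2 + |B| / expNegInvGlue 1)) := Metric.isBounded_closedBall
    refine (T.symm.toContinuousLinearMap.lipschitz.isBounded_image hb).subset fun y hy => ⟨T y, ?_, by simp⟩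
    simp only [mem_setOf_eq] at hy
    rw [mem_closedBall_zero_iff]
    have hB : 0 ≤ |B| / expNegInvGlue 1 := by positivity
    have hq1 : q y ≤ R ^ 2 + 1 + |B| / expNegInvGlue 1 := by
      rcases le_total (q y) (R ^ 2 + 1) with h | h
      · linarith
      · have := expNegInvGlue.monotone (show 1 ≤ q y - R ^ 2 by linarith)
        have h2 : q y * expNegInvGlue 1 ≤ |B| :=
          (mul_le_mul_of_nonneg_left this (hq0 y)).trans (hy.trans (le_abs_self B))
        have h3 : q y ≤ |B| / expNegInvGlue 1 := by rwa [le_div_iff₀ e1]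
        nlinarith [sq_nonneg R]
    simp only [q] at hq1
    nlinarith [sq_nonneg (‖T y‖ - 1)]

section bend
variable (e : E) (φ : E →L[ℝ] ℝ) (g : ℝ → ℝ) (h : F → ℝ)

/-- the folding map -/
noncomputable def pm (z : E × F) : E := z.1 + (g (φ z.1) - h z.2 - φ z.1) • e

/-- the denominator -/
noncomputable def den (p : ℝ × F) : ℝ := deriv g p.1 ^ 2 + fderiv ℝ h p.2 p.2 ^ 2

/-- the transversal field -/
noncomputable def Xf (p : ℝ × F) : E × F :=
  ((deriv g p.1 / den g h p) • e, -(fderiv ℝ h p.2 p.2 / den g h p) • p.2)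

/-- the lifts -/
noncomputable def Hf (z : E × F) : E →L[ℝ] E × F :=
  (ContinuousLinearMap.inl ℝ E F).comp (ContinuousLinearMap.id ℝ E - φ.smulRight e) +
    φ.smulRight (Xf e g h (φ z.1, z.2))

variable {e φ g h}

theorem fderiv_pm (hg : ContDiff ℝ ∞ g) (hh : ContDiff ℝ ∞ h) (z v : E × F) :
    fderiv ℝ (pm e φ g h) z v =
      v.1 + (deriv g (φ z.1) * φ v.1 - fderiv ℝ h z.2 v.2 - φ v.1) • e := by
  have d1 : HasFDerivAt (fun z : E × F => φ z.1) (φ.comp (ContinuousLinearMap.fst ℝ E F)) z :=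
    φ.hasFDerivAt.comp z hasFDerivAt_fst
  have d2 := (hg.differentiable (by simp) (φ z.1)).hasDerivAt.comp_hasFDerivAt z d1
  have d3 := (hh.differentiable (by simp) z.2).hasFDerivAt.comp z hasFDerivAt_snd
  have := (hasFDerivAt_fst.add (((d2.sub d3).sub d1).smul_const e)).fderiv
  have e' : fderiv ℝ (pm e φ g h) z = _ := this
  rw [e']
  simp

theorem contDiff_pm (hg : ContDiff ℝ ∞ g) (hh : ContDiff ℝ ∞ h) : ContDiff ℝ ∞ (pm e φ g h) :=
  contDiff_fst.add ((((hg.comp (φ.contDiff.comp contDiff_fst)).sub (hh.comp contDiff_snd)).sub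
    (φ.contDiff.comp contDiff_fst)).smul contDiff_const)

theorem contDiff_den (hg : ContDiff ℝ ∞ g) (hh : ContDiff ℝ ∞ h) :
    ContDiff ℝ ∞ (fun p : ℝ × F => deriv g p.1) ∧
    ContDiff ℝ ∞ (fun p : ℝ × F => fderiv ℝ h p.2 p.2) ∧ ContDiff ℝ ∞ (den g h) := by
  have a : ContDiff ℝ ∞ (fun p : ℝ × F => deriv g p.1) :=
    (hg.deriv' (n := ∞)).comp contDiff_fst
  have b : ContDiff ℝ ∞ (fun p : ℝ × F => fderiv ℝ h p.2 p.2) :=
    ((hh.fderiv_right (m := ∞) (by simp)).comp contDiff_snd).clm_apply contDiff_snd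
  exact ⟨a, b, (a.pow 2).add (b.pow 2)⟩

theorem contDiffAt_Xf (hg : ContDiff ℝ ∞ g) (hh : ContDiff ℝ ∞ h) {p : ℝ × F}
    (hp : den g h p ≠ 0) : ContDiffAt ℝ ∞ (Xf e g h) p := by
  obtain ⟨a, b, c⟩ := contDiff_den hg hh
  exact ((a.contDiffAt.div c.contDiffAt hp).smul contDiffAt_const).prodMk
    ((b.contDiffAt.div c.contDiffAt hp).neg.smul contDiffAt_snd)

theorem good_at_bend (hg : ContDiff ℝ ∞ g) (hh : ContDiff ℝ ∞ h) (he : φ e = 1)
    {K : E → E →L[ℝ] E} (hK : Good K) {z : E × F} (hz : den g h (φ z.1, z.2) ≠ 0) :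
    ContDiffAt ℝ ∞ (pull (Hf e φ g h) K (pm e φ g h)) z ∧
      NijAt (pull (Hf e φ g h) K (pm e φ g h)) z := by
  have c1 : ContDiff ℝ ∞ (fun z : E × F => (φ z.1, z.2)) :=
    (φ.contDiff.comp contDiff_fst).prodMk contDiff_snd
  have cX : ContDiffAt ℝ ∞ (fun z : E × F => Xf e g h (φ z.1, z.2)) z :=
    ContDiffAt.comp (g := Xf e g h) z (contDiffAt_Xf hg hh hz) c1.contDiffAt
  have cH : ContDiffAt ℝ ∞ (Hf e φ g h) z :=
    contDiffAt_const.add (contDiffAt_const.smulRight cX)
  refine ⟨contDiffAt_pull (contDiff_pm hg hh).contDiffAt cH hK.1.contDiffAt,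
    nijAt_pull (contDiff_pm hg hh).contDiffAt (cH.differentiableAt (by simp))
      (hK.1.differentiable (by simp) _) (hK.2 _) ?_ ?_⟩
  · have : ∀ᶠ y in 𝓝 z, den g h (φ y.1, y.2) ≠ 0 :=
      (((contDiff_den hg hh).2.2.comp c1).continuous.continuousAt).eventually_ne hz
    filter_upwards [this] with y hy u
    rw [fderiv_pm hg hh]
    have hH : Hf e φ g h y u = (u - φ u • e + φ u • (deriv g (φ y.1) / den g h (φ y.1, y.2)) • e,
        φ u • -(fderiv ℝ h y.2 y.2 / den g h (φ y.1, y.2)) • y.2) := by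
      simp [Hf, Xf]
    simp only [hH, map_add, map_sub, map_smul, he, smul_eq_mul]
    have hd : den g h (φ y.1, y.2) = deriv g (φ y.1) ^ 2 + fderiv ℝ h y.2 y.2 ^ 2 := rfl
    match_scalars
    · ring
    · field_simp
      rw [hd]
      ring
  · have dX := cX.differentiableAt (by simp)
    have hD : ∀ a u, fderiv ℝ (Hf e φ g h) z a u =
        φ u • fderiv ℝ (fun z : E × F => Xf e g h (φ z.1, z.2)) z a := fun a u => by
      rw [fd_const (cH.differentiableAt (by simp))]
      simp only [Hf, ContinuousLinearMap.add_apply, ContinuousLinearMap.smulRight_apply]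
      rw [fderiv_const_add, fderiv_fun_const_smul dX]
      rfl
    have h0 : ∀ u, fderiv ℝ (fun z : E × F => Xf e g h (φ z.1, z.2)) z (u - φ u • e, 0) = 0 :=
      fun u => by
        have d1 : HasFDerivAt (fun z : E × F => (φ z.1, z.2))
            ((φ.comp (ContinuousLinearMap.fst ℝ E F)).prod (ContinuousLinearMap.snd ℝ E F)) z :=
          (φ.hasFDerivAt.comp z hasFDerivAt_fst).prodMk hasFDerivAt_snd
        have := (((contDiffAt_Xf (e := e) hg hh hz).differentiableAt (by simp)).hasFDerivAt.comp z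
          d1).fderiv
        have e' : fderiv ℝ (fun z : E × F => Xf e g h (φ z.1, z.2)) z = _ := this
        rw [e']
        simp [he, Prod.mk_zero_zero]
    intro u u'
    rw [hD, hD]
    have hH : ∀ u, Hf e φ g h z u = (u - φ u • e, 0) + φ u • Xf e g h (φ z.1, z.2) := fun u => by
      simp [Hf]
    simp only [hH, map_add, map_smul, h0, zero_add]
    rw [smul_comm]

end bend

theorem bend [FiniteDimensional ℝ E] [FiniteDimensional ℝ F] {K : E → E →L[ℝ] E} (hK : Good K)
    (hb : Bornology.IsBounded (Function.support K)) {S : Set E} (hS : Bornology.IsBounded S) :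
    ∃ K' : E → E →L[ℝ] E, Bornology.IsBounded (Function.support K') ∧ EqOn K' K S ∧
      ∀ T : Set F, Bornology.IsBounded T → ∃ M : E × F → E × F →L[ℝ] E × F, Good M ∧
        Bornology.IsBounded (Function.support M) ∧
        ∀ x, ∀ y ∈ T, M (x, y) = (K' x).prodMap 0 := by
  rcases subsingleton_or_nontrivial E with hE | hE
  · refine ⟨K, hb, fun _ _ => rfl, fun T _ => ⟨fun _ => 0, ⟨contDiff_const, nijAt_zero⟩, by simp,
      fun x y _ => ?_⟩⟩
    ext <;> simp [Subsingleton.elim (K x _) 0]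
  obtain ⟨e, he0⟩ := exists_ne (0 : E)
  obtain ⟨φ0, hφ0⟩ := Module.Projective.exists_dual_eq_one ℝ he0
  let φ : E →L[ℝ] ℝ := LinearMap.toContinuousLinearMap φ0
  have he : φ e = 1 := hφ0
  obtain ⟨R, hR0, hR⟩ := (hS.union hb).subset_ball_lt 0 (0 : E)
  have hφR : ∀ x : E, ‖x‖ ≤ R → |φ x| ≤ ‖φ‖ * R := fun x hx =>
    (φ.le_opNorm x).trans (mul_le_mul_of_nonneg_left hx (norm_nonneg _))
  have hD : 0 ≤ ‖φ‖ * R + 1 := by positivity
  obtain ⟨g, hg, g1, g2, g3, g4⟩ := exists_g hD
  have hKz : ∀ x, R ≤ ‖x‖ → K x = 0 := fun x hx => by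
    by_contra h0
    have := hR (Or.inr h0)
    simp at this
    linarith
  let K' : E → E →L[ℝ] E := fun x =>
    (ContinuousLinearMap.id ℝ E + ((deriv g (φ x))⁻¹ - 1) • φ.smulRight e).comp
      ((K (x + (g (φ x) - φ x) • e)).comp
        (ContinuousLinearMap.id ℝ E + (deriv g (φ x) - 1) • φ.smulRight e))
  have main : ∀ T : Set F, Bornology.IsBounded T → ∃ M : E × F → E × F →L[ℝ] E × F, Good M ∧
      Bornology.IsBounded (Function.support M) ∧
      ∀ x, ∀ y ∈ T, M (x, y) = (K' x).prodMap 0 := by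
    intro T hT
    obtain ⟨h, hh, h0, h1, h2, h3⟩ := exists_h hT
    have hφπ : ∀ z : E × F, φ (pm e φ g h z) = g (φ z.1) - h z.2 := fun z => by
      simp [pm, he]
    have loc : ∀ z : E × F, ContDiffAt ℝ ∞ (pull (Hf e φ g h) K (pm e φ g h)) z ∧
        NijAt (pull (Hf e φ g h) K (pm e φ g h)) z := fun z => by
      by_cases hz : den g h (φ z.1, z.2) = 0
      · have a : deriv g (φ z.1) = 0 := by
          simp only [den] at hz
          nlinarith [sq_nonneg (deriv g (φ z.1)), sq_nonneg (fderiv ℝ h z.2 z.2)]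
        have b : fderiv ℝ h z.2 z.2 = 0 := by
          simp only [den] at hz
          nlinarith [sq_nonneg (deriv g (φ z.1)), sq_nonneg (fderiv ℝ h z.2 z.2)]
        have c : ‖φ‖ * R < φ (pm e φ g h z) := by
          rw [hφπ, h2 _ b]
          linarith [g2 _ a]
        have d : ∀ᶠ y in 𝓝 z, ‖φ‖ * R < φ (pm e φ g h y) :=
          (φ.continuous.comp (contDiff_pm hg hh).continuous).continuousAt.eventually_const_lt c
        have ev : pull (Hf e φ g h) K (pm e φ g h) =ᶠ[𝓝 z] fun _ => 0 := by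
          filter_upwards [d] with y hy
          have : K (pm e φ g h y) = 0 := hKz _ (by
            by_contra h5
            have := hφR _ (not_le.1 h5).le
            linarith [le_abs_self (φ (pm e φ g h y))])
          simp [pull, this]
        exact ⟨contDiffAt_const.congr_of_eventuallyEq ev, (nijAt_zero z).congr ev⟩
      · exact good_at_bend hg hh he hK hz
    refine ⟨pull (Hf e φ g h) K (pm e φ g h),
      ⟨contDiff_iff_contDiffAt.2 fun z => (loc z).1, fun z => (loc z).2⟩, ?_, fun x y hy => ?_⟩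
    · refine ((Metric.isBounded_closedBall (x := (0 : E))
        (r := R + (‖φ‖ * R + (2 * (‖φ‖ * R + 1) + 1 + ‖φ‖ * R)) * ‖e‖)).prod
        (h3 (‖φ‖ * R + 1 + 1 + ‖φ‖ * R))).subset fun z hz => ?_
      have a : ‖pm e φ g h z‖ ≤ R := by
        by_contra h5
        exact hz (by simp [pull, hKz _ (not_le.1 h5).le])
      have b := hφR _ a
      rw [hφπ, abs_le] at b
      have c := g4 (φ z.1) (‖φ‖ * R) (by positivity) (by linarith [h0 z.2])
      refine ⟨?_, ?_⟩
      · rw [mem_closedBall_zero_iff]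
        have : z.1 = pm e φ g h z - (g (φ z.1) - h z.2 - φ z.1) • e := by simp [pm]
        rw [this]
        refine (norm_sub_le _ _).trans (add_le_add a ?_)
        rw [norm_smul]
        refine mul_le_mul_of_nonneg_right ?_ (norm_nonneg _)
        rw [Real.norm_eq_abs, abs_le] at *
        constructor <;> linarith [c.1, c.2]
      · show h z.2 ≤ _
        linarith [g3 (φ z.1)]
    · have a : fderiv ℝ h y = 0 :=
        (show IsLocalMin h y from Eventually.of_forall fun y' => by
          rw [h1 y hy]; exact h0 y').fderiv_eq_zero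
      refine ContinuousLinearMap.ext fun v => ?_
      have b : pm e φ g h (x, y) = x + (g (φ x) - φ x) • e := by simp [pm, h1 y hy]
      have c : deriv g (φ x) / deriv g (φ x) ^ 2 = (deriv g (φ x))⁻¹ := by
        by_cases h5 : deriv g (φ x) = 0
        · simp [h5]
        · field_simp
      have d : v.1 + (deriv g (φ x) * φ v.1 - φ v.1) • e =
          v.1 + (deriv g (φ x) - 1) • φ v.1 • e := by module
      simp only [pull, ContinuousLinearMap.comp_apply, fderiv_pm hg hh, b, a]
      simp only [Hf, Xf, den, a, K', ContinuousLinearMap.zero_apply, sub_zero, d]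
      ext
      · simp [c]
        module
      · simp
  refine ⟨K', ?_, fun x hx => ?_, main⟩
  · obtain ⟨M, -, hM, hM'⟩ := main {0} Bornology.isBounded_singleton
    refine (hM.image_fst).subset fun x hx => ⟨(x, 0), fun h0 => hx ?_, rfl⟩
    rw [hM' x 0 rfl] at h0
    ext v
    simpa using congrArg (fun T => (T (v, 0)).1) h0
  · have a : ‖x‖ < R := by simpa using hR (Or.inl hx)
    have b := hφR x a.le
    have c : φ x < ‖φ‖ * R + 1 := by linarith [le_abs_self (φ x)]
    have d : deriv g (φ x) = 1 := by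
      have : g =ᶠ[𝓝 (φ x)] id := (eventually_lt_nhds c).mono fun y hy => g1 y hy.le
      rw [this.deriv_eq]
      simp
    simp [K', d, g1 _ c.le]

theorem fderiv_inr_zero {G : Type*} [NormedAddCommGroup G] [NormedSpace ℝ G] {M : E × F → G}
    {A : E → G} {z : E × F} (dM : DifferentiableAt ℝ M z) (h : ∀ᶠ p in 𝓝 z, M p = A p.1) (b : F) :
    fderiv ℝ M z (0, b) = 0 := by
  have d1 : HasFDerivAt (fun p : E × F => (p.1, z.2))
      ((ContinuousLinearMap.fst ℝ E F).prod 0) z := hasFDerivAt_fst.prodMk (hasFDerivAt_const _ _)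
  have h2 : ∀ᶠ p in 𝓝 z, M (p.1, z.2) = A p.1 := by
    have : Tendsto (fun p : E × F => (p.1, z.2)) (𝓝 z) (𝓝 z) := d1.continuousAt
    exact this.eventually h
  have h3 : M =ᶠ[𝓝 z] M ∘ fun p : E × F => (p.1, z.2) := by
    filter_upwards [h, h2] with p a b
    simp [a, b]
  rw [h3.fderiv_eq, (HasFDerivAt.comp z (g := M) dM.hasFDerivAt d1).fderiv]
  simp [Prod.mk_zero_zero]

theorem fderiv_inl_zero {G : Type*} [NormedAddCommGroup G] [NormedSpace ℝ G] {M : E × F → G}
    {A : F → G} {z : E × F} (dM : DifferentiableAt ℝ M z) (h : ∀ᶠ p in 𝓝 z, M p = A p.2) (b : E) :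
    fderiv ℝ M z (b, 0) = 0 := by
  have d1 : HasFDerivAt (fun p : E × F => (z.1, p.2))
      ((0 : E × F →L[ℝ] E).prod (ContinuousLinearMap.snd ℝ E F)) z :=
    (hasFDerivAt_const _ _).prodMk hasFDerivAt_snd
  have h2 : ∀ᶠ p in 𝓝 z, M (z.1, p.2) = A p.2 := by
    have : Tendsto (fun p : E × F => (z.1, p.2)) (𝓝 z) (𝓝 z) := d1.continuousAt
    exact this.eventually h
  have h3 : M =ᶠ[𝓝 z] M ∘ fun p : E × F => (z.1, p.2) := by
    filter_upwards [h, h2] with p a b
    simp [a, b]
  rw [h3.fderiv_eq, (HasFDerivAt.comp z (g := M) dM.hasFDerivAt d1).fderiv]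
  simp [Prod.mk_zero_zero]

theorem nijAt_sum {M N : E × F → E × F →L[ℝ] E × F} (hM : Good M) (hN : Good N)
    {A : E → E →L[ℝ] E} {B : F → F →L[ℝ] F} {z : E × F}
    (h1 : ∀ᶠ p in 𝓝 z, M p = (A p.1).prodMap 0) (h2 : ∀ᶠ p in 𝓝 z, N p = (0 : E →L[ℝ] E).prodMap (B p.2)) :
    NijAt (fun p => M p + N p) z := by
  have dM := hM.1.differentiable (by simp) z
  have dN := hN.1.differentiable (by simp) z
  refine (hM.2 z).add (hN.2 z) dM dN (fun v w => ?_) (fun v w => ?_) (fun v w => ?_) (fun v w => ?_)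
  · rw [h2.self_of_nhds]
    show fderiv ℝ M z (0, _) w = 0
    rw [fderiv_inr_zero (A := fun x => (A x).prodMap 0) dM h1]
    rfl
  · rw [h1.self_of_nhds]
    show fderiv ℝ N z (_, 0) w = 0
    rw [fderiv_inl_zero (A := fun y => (0 : E →L[ℝ] E).prodMap (B y)) dN h2]
    rfl
  · have : (fderiv ℝ N z v w).1 = 0 := by
      have d := dN.clm_apply (differentiableAt_const w)
      have e : (fun p => (N p w).1) =ᶠ[𝓝 z] fun _ => 0 := h2.mono fun p hp => by simp [hp]
      have h5 := d.hasFDerivAt.fst.fderiv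
      rw [e.fderiv_eq] at h5
      rw [fd_const dN]
      simpa using (congrArg (fun T => T v) h5).symm
    rw [h1.self_of_nhds]
    ext <;> simp [this]
  · have : (fderiv ℝ M z v w).2 = 0 := by
      have d := dM.clm_apply (differentiableAt_const w)
      have e : (fun p => (M p w).2) =ᶠ[𝓝 z] fun _ => 0 := h1.mono fun p hp => by simp [hp]
      have h5 := d.hasFDerivAt.snd.fderiv
      rw [e.fderiv_eq] at h5
      rw [fd_const dM]
      simpa using (congrArg (fun T => T v) h5).symm
    rw [h2.self_of_nhds]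
    ext <;> simp [this]

theorem Cpt.prod [FiniteDimensional ℝ E] [FiniteDimensional ℝ F] {L1 : E → E →L[ℝ] E}
    {L2 : F → F →L[ℝ] F} (c1 : Cpt L1) (c2 : Cpt L2) :
    Cpt (fun z : E × F => (L1 z.1).prodMap (L2 z.2)) := by
  intro S hS
  obtain ⟨K1, g1, b1, e1⟩ := c1 _ hS.image_fst
  obtain ⟨K2, g2, b2, e2⟩ := c2 _ hS.image_snd
  obtain ⟨A, -, eA, hA⟩ := bend (F := F) g1 b1 hS.image_fst
  obtain ⟨B, bB, eB, hB⟩ := bend (F := E) g2 b2 hS.image_snd
  obtain ⟨R, hR0, hR⟩ := (hS.image_snd.union bB).subset_ball_lt 0 (0 : F)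
  obtain ⟨M, gM, bM, hM⟩ := hA (Metric.ball 0 (R + 1)) Metric.isBounded_ball
  obtain ⟨R', hR0', hR'⟩ := (hS.image_fst.union bM.image_fst).subset_ball_lt 0 (0 : E)
  obtain ⟨N0, gN0, bN0, hN0⟩ := hB (Metric.ball 0 (R' + 1)) Metric.isBounded_ball
  let σ := ContinuousLinearEquiv.prodComm ℝ E F
  let N := pull (fun _ => (σ.symm : F × E →L[ℝ] E × F)) N0 σ
  have gN : Good N := gN0.equiv σ
  have hN : ∀ z : E × F, ‖z.1‖ < R' + 1 → N z = (0 : E →L[ℝ] E).prodMap (B z.2) := fun z hz => by
    have : σ z = (z.2, z.1) := rfl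
    refine ContinuousLinearMap.ext fun v => ?_
    simp only [N, pull, σ.fderiv, this, hN0 z.2 z.1 (by simpa using hz)]
    rfl
  have hM' : ∀ z : E × F, ‖z.2‖ < R + 1 → M z = (A z.1).prodMap 0 := fun z hz =>
    hM z.1 z.2 (by simpa using hz)
  refine ⟨fun z => M z + N z, ⟨gM.1.add gN.1, fun z => ?_⟩, ?_, fun z hz => ?_⟩
  · by_cases hz : ‖z.1‖ < R' + 1
    · have e2 : ∀ᶠ p in 𝓝 z, N p = (0 : E →L[ℝ] E).prodMap (B p.2) :=
        ((continuous_norm.comp continuous_fst).continuousAt.eventually_lt_const hz).mono hN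
      by_cases hz' : ‖z.2‖ < R + 1
      · exact nijAt_sum gM gN
          (((continuous_norm.comp continuous_snd).continuousAt.eventually_lt_const hz').mono hM') e2
      · refine (gM.2 z).congr ?_
        have : ∀ᶠ p in 𝓝 z, R < ‖p.2‖ :=
          (continuous_norm.comp continuous_snd).continuousAt.eventually_const_lt
            (by show R < ‖z.2‖; linarith)
        filter_upwards [this, e2] with p a b
        have : B p.2 = 0 := by
          by_contra h0
          have := hR (Or.inr h0)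
          simp at this
          linarith
        rw [b, this]
        ext <;> simp
    · refine (gN.2 z).congr ?_
      have : ∀ᶠ p in 𝓝 z, R' < ‖p.1‖ :=
        (continuous_norm.comp continuous_fst).continuousAt.eventually_const_lt
          (by show R' < ‖z.1‖; linarith)
      filter_upwards [this] with p a
      have : M p = 0 := by
        by_contra h0
        have := hR' (Or.inr ⟨p, h0, rfl⟩)
        simp at this
        linarith
      simp [this]
  · refine (bM.union (σ.symm.toContinuousLinearMap.lipschitz.isBounded_image bN0)).subset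
      fun z hz => ?_
    by_contra h0
    simp only [mem_union, Function.mem_support, not_or, not_not] at h0
    have : N0 (σ z) = 0 := by
      by_contra h1
      exact h0.2 ⟨σ z, h1, by simp⟩
    exact hz (by simp [h0.1, N, pull, this])
  · have a : ‖z.2‖ < R := by simpa using hR (Or.inl ⟨z, hz, rfl⟩)
    have b : ‖z.1‖ < R' := by simpa using hR' (Or.inl ⟨z, hz, rfl⟩)
    show M z + N z = _
    rw [hM' z (by linarith), hN z (by linarith), eA ⟨z, hz, rfl⟩, eB ⟨z, hz, rfl⟩,
      e1 ⟨z, hz, rfl⟩, e2 ⟨z, hz, rfl⟩]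
    ext <;> simp

theorem cpt_zero : Cpt (fun _ : E => (0 : E →L[ℝ] E)) := fun _ _ =>
  ⟨fun _ => 0, ⟨contDiff_const, nijAt_zero⟩, by simp, fun _ _ => rfl⟩

end Pool.Agent.H.MP_17a4b7_gt
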