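import Pool.Agent.H.MP_17a4b7_gt.B

open scoped ContDiff Topology
open Filter Set

namespace Pool.Agent.H.MP_17a4b7_gt

theorem exists_ah : ∃ α h : ℝ → ℝ, ContDiff ℝ ∞ α ∧ ContDiff ℝ ∞ h ∧ α 0 ≠ 0 ∧
    (∀ t, 2 < |t| → α t = 0 ∧ h t = 0) ∧ ∀ t, α t * deriv h t - deriv α t * h t = α t := by
  let k : ℝ → ℝ := fun t => (1 - t ^ 2) ^ 2 / (1 + t ^ 4)
  have hk : ContDiff ℝ ∞ k := by
    refine ContDiff.div (by fun_prop) (by fun_prop) fun t => by positivity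
  let χ : ContDiffBump (0 : ℝ) := ⟨3 / 2, 2, by norm_num, by norm_num⟩
  let α : ℝ → ℝ := fun t => expNegInvGlue (1 - t ^ 2) * k t
  have hα : ContDiff ℝ ∞ α := (expNegInvGlue.contDiff.comp (by fun_prop)).mul hk
  have h1 : ∀ t, 1 < |t| → α t = 0 := fun t ht => by
    have : 1 - t ^ 2 ≤ 0 := by nlinarith [sq_abs t]
    simp [α, expNegInvGlue.zero_of_nonpos this]
  refine ⟨α, fun t => χ t * (t * k t), hα, χ.contDiff.mul (contDiff_id.mul hk), ?_,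
    fun t ht => ⟨h1 t (by linarith), ?_⟩, fun t => ?_⟩
  · have := expNegInvGlue.pos_of_pos one_pos
    simp [α, k, this.ne']
  · have : χ t = 0 := χ.zero_of_le_dist (by simpa using ht.le)
    simp [this]
  · by_cases ht : |t| < 3 / 2
    · have e : (fun t => χ t * (t * k t)) =ᶠ[𝓝 t] fun t => t * k t := by
        filter_upwards [χ.eventuallyEq_one_of_mem_ball (x := t) (by simpa using ht)] with y hy
        simp [hy]
      have dk := (hk.differentiable (by simp) t).hasDerivAt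
      have du : HasDerivAt (fun t : ℝ => 1 - t ^ 2) (-(2 * t)) t := by
        simpa using (hasDerivAt_pow 2 t).const_sub 1
      have d0 := HasDerivAt.comp (h := fun t : ℝ => 1 - t ^ 2) t (hasDerivAt_glue (1 - t ^ 2)) du
      have d1 : deriv α t = _ := (d0.mul dk).deriv
      have d2 : deriv (fun t => t * k t) t = _ := ((hasDerivAt_id t).mul dk).deriv
      have e0 : χ t * (t * k t) = t * k t := e.eq_of_nhds
      show α t * deriv (fun t => χ t * (t * k t)) t - deriv α t * (χ t * (t * k t)) = α t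
      rw [e.deriv_eq, e0, d1, d2]
      simp only [α, Function.comp, id]
      by_cases hu : 1 - t ^ 2 = 0
      · simp [hu, expNegInvGlue.zero]
      · have h4 : (1 + t ^ 4) ≠ 0 := by positivity
        have hkt : k t = (1 - t ^ 2) ^ 2 / (1 + t ^ 4) := rfl
        generalize deriv k t = k' at *
        rw [hkt]
        field_simp
        ring
    · have e : α =ᶠ[𝓝 t] fun _ => 0 :=
        (continuous_abs.continuousAt.eventually_const_lt (show 1 < |t| by linarith [not_lt.1 ht])).mono h1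
      rw [e.deriv_eq, e.eq_of_nhds]
      simp

variable {E : Type*} [NormedAddCommGroup E] [NormedSpace ℝ E]

/-- the differential of a one-form attached to a field of endomorphisms -/
noncomputable def dL (L : E → E →L[ℝ] E) (β : E → E →L[ℝ] ℝ) (x v w : E) : ℝ :=
  fderiv ℝ β x (L x v) w - fderiv ℝ β x (L x w) v - β x (fderiv ℝ L x v w - fderiv ℝ L x w v)

/-- a one-form on the cylinder -/
noncomputable def lift (a b : ℝ → ℝ) (ζ θ : E → E →L[ℝ] ℝ) (z : ℝ × E) : ℝ × E →L[ℝ] ℝ :=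
  (a z.1 • ζ z.2 + b z.1 • θ z.2).comp (ContinuousLinearMap.snd ℝ ℝ E)

theorem lift_apply (a b : ℝ → ℝ) (ζ θ : E → E →L[ℝ] ℝ) (z W : ℝ × E) :
    lift a b ζ θ z W = a z.1 * ζ z.2 W.2 + b z.1 * θ z.2 W.2 := by simp [lift]

theorem contDiff_lift {a b : ℝ → ℝ} {ζ θ : E → E →L[ℝ] ℝ} (ha : ContDiff ℝ ∞ a)
    (hb : ContDiff ℝ ∞ b) (hζ : ContDiff ℝ ∞ ζ) (hθ : ContDiff ℝ ∞ θ) :
    ContDiff ℝ ∞ (lift a b ζ θ) :=
  (((ha.comp contDiff_fst).smul (hζ.comp contDiff_snd)).add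
    ((hb.comp contDiff_fst).smul (hθ.comp contDiff_snd))).clm_comp contDiff_const

theorem hasF1 {a : ℝ → ℝ} (ha : ContDiff ℝ ∞ a) (z : ℝ × E) :
    HasFDerivAt (fun z : ℝ × E => a z.1) (deriv a z.1 • ContinuousLinearMap.fst ℝ ℝ E) z :=
  (ha.differentiable (by simp) z.1).hasDerivAt.comp_hasFDerivAt z hasFDerivAt_fst

theorem hasF2 {G : Type*} [NormedAddCommGroup G] [NormedSpace ℝ G] {f : E → G}
    (hf : ContDiff ℝ ∞ f) (z : ℝ × E) :
    HasFDerivAt (fun z : ℝ × E => f z.2) ((fderiv ℝ f z.2).comp (ContinuousLinearMap.snd ℝ ℝ E)) z :=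
  (hf.differentiable (by simp) z.2).hasFDerivAt.comp z hasFDerivAt_snd

theorem fderiv_lift {a b : ℝ → ℝ} {ζ θ : E → E →L[ℝ] ℝ} (ha : ContDiff ℝ ∞ a)
    (hb : ContDiff ℝ ∞ b) (hζ : ContDiff ℝ ∞ ζ) (hθ : ContDiff ℝ ∞ θ) (z V W : ℝ × E) :
    fderiv ℝ (lift a b ζ θ) z V W = V.1 * (deriv a z.1 * ζ z.2 W.2 + deriv b z.1 * θ z.2 W.2) +
      a z.1 * fderiv ℝ ζ z.2 V.2 W.2 + b z.1 * fderiv ℝ θ z.2 V.2 W.2 := by
  have h := ((((hasF1 ha z).smul (hasF2 hζ z)).add ((hasF1 hb z).smul (hasF2 hθ z))).clm_comp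
    (hasFDerivAt_const (ContinuousLinearMap.snd ℝ ℝ E) z)).fderiv
  have e : fderiv ℝ (lift a b ζ θ) z = _ := h
  rw [e]
  simp
  ring

/-- the next field -/
noncomputable def Lp (α h : ℝ → ℝ) (ζ θ : E → E →L[ℝ] ℝ) (L : E → E →L[ℝ] E) (z : ℝ × E) :
    ℝ × E →L[ℝ] ℝ × E :=
  (lift α h ζ θ z).prod ((L z.2).comp (ContinuousLinearMap.snd ℝ ℝ E))

theorem Lp_apply (α h : ℝ → ℝ) (ζ θ : E → E →L[ℝ] ℝ) (L : E → E →L[ℝ] E) (z W : ℝ × E) :
    Lp α h ζ θ L z W = (α z.1 * ζ z.2 W.2 + h z.1 * θ z.2 W.2, L z.2 W.2) := by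
  simp [Lp, lift_apply]

theorem contDiff_Lp {α h : ℝ → ℝ} {ζ θ : E → E →L[ℝ] ℝ} {L : E → E →L[ℝ] E} (ha : ContDiff ℝ ∞ α)
    (hb : ContDiff ℝ ∞ h) (hζ : ContDiff ℝ ∞ ζ) (hθ : ContDiff ℝ ∞ θ) (hL : ContDiff ℝ ∞ L) :
    ContDiff ℝ ∞ (Lp α h ζ θ L) := by
  have e : Lp α h ζ θ L = fun z => (ContinuousLinearMap.inl ℝ ℝ E).comp (lift α h ζ θ z) +
      (ContinuousLinearMap.inr ℝ ℝ E).comp ((L z.2).comp (ContinuousLinearMap.snd ℝ ℝ E)) := by
    funext z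
    refine ContinuousLinearMap.ext fun W => ?_
    simp [Lp]
  rw [e]
  exact (contDiff_const.clm_comp (contDiff_lift ha hb hζ hθ)).add
    (contDiff_const.clm_comp ((hL.comp contDiff_snd).clm_comp contDiff_const))

theorem fderiv_Lp {α h : ℝ → ℝ} {ζ θ : E → E →L[ℝ] ℝ} {L : E → E →L[ℝ] E} (ha : ContDiff ℝ ∞ α)
    (hb : ContDiff ℝ ∞ h) (hζ : ContDiff ℝ ∞ ζ) (hθ : ContDiff ℝ ∞ θ) (hL : ContDiff ℝ ∞ L)
    (z V W : ℝ × E) : fderiv ℝ (Lp α h ζ θ L) z V W =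
      (V.1 * (deriv α z.1 * ζ z.2 W.2 + deriv h z.1 * θ z.2 W.2) +
      α z.1 * fderiv ℝ ζ z.2 V.2 W.2 + h z.1 * fderiv ℝ θ z.2 V.2 W.2,
      fderiv ℝ L z.2 V.2 W.2) := by
  have d1 := (contDiff_lift ha hb hζ hθ).differentiable (by simp) z
  have d2 := ((hasF2 hL z).clm_apply (hasFDerivAt_const W.2 z))
  rw [fd_const ((contDiff_Lp ha hb hζ hθ hL).differentiable (by simp) z), ← fderiv_lift ha hb hζ hθ,
    fd_const d1]
  have h0 := ((d1.clm_apply (differentiableAt_const W)).hasFDerivAt.prodMk d2).fderiv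
  have e : fderiv ℝ (fun y => Lp α h ζ θ L y W) z = _ := h0
  rw [e]
  simp

/-- the next first form -/
noncomputable def zp (α h : ℝ → ℝ) (ρ : E → ℝ) (z : ℝ × E) : ℝ × E →L[ℝ] ℝ :=
  (α z.1 * ρ z.2) • ContinuousLinearMap.fst ℝ ℝ E -
    (α z.1 * h z.1) • (fderiv ℝ ρ z.2).comp (ContinuousLinearMap.snd ℝ ℝ E)

theorem zp_apply (α h : ℝ → ℝ) (ρ : E → ℝ) (z W : ℝ × E) :
    zp α h ρ z W = α z.1 * ρ z.2 * W.1 - α z.1 * h z.1 * fderiv ℝ ρ z.2 W.2 := by simp [zp]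

theorem contDiff_zp {α h : ℝ → ℝ} {ρ : E → ℝ} (ha : ContDiff ℝ ∞ α) (hb : ContDiff ℝ ∞ h)
    (hρ : ContDiff ℝ ∞ ρ) : ContDiff ℝ ∞ (zp α h ρ) :=
  (((ha.comp contDiff_fst).mul (hρ.comp contDiff_snd)).smul contDiff_const).sub
    (((ha.comp contDiff_fst).mul (hb.comp contDiff_fst)).smul
      (((hρ.fderiv_right (m := ∞) (by simp)).comp contDiff_snd).clm_comp contDiff_const))

theorem fderiv_zp {α h : ℝ → ℝ} {ρ : E → ℝ} (ha : ContDiff ℝ ∞ α) (hb : ContDiff ℝ ∞ h)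
    (hρ : ContDiff ℝ ∞ ρ) (z V W : ℝ × E) : fderiv ℝ (zp α h ρ) z V W =
      (deriv α z.1 * ρ z.2 * V.1 + α z.1 * fderiv ℝ ρ z.2 V.2) * W.1 -
      (deriv α z.1 * h z.1 + α z.1 * deriv h z.1) * V.1 * fderiv ℝ ρ z.2 W.2 -
      α z.1 * h z.1 * fderiv ℝ (fderiv ℝ ρ) z.2 V.2 W.2 := by
  have h0 := ((((hasF1 ha z).mul (hasF2 hρ z)).smul_const (ContinuousLinearMap.fst ℝ ℝ E)).sub
    (((hasF1 ha z).mul (hasF1 hb z)).smul ((hasF2 (hρ.fderiv_right (m := ∞) (by simp)) z).clm_comp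
      (hasFDerivAt_const (ContinuousLinearMap.snd ℝ ℝ E) z)))).fderiv
  have e : fderiv ℝ (zp α h ρ) z = _ := h0
  rw [e]
  simp
  ring

/-- the data carried along the induction on the size of the block -/
structure Stage (m : ℕ) (L : E → E →L[ℝ] E) (ρ : E → ℝ) (ζ θ : E → E →L[ℝ] ℝ) (U : Set E) :
    Prop where
  good : Good L
  cpt : Cpt L
  cρ : ContDiff ℝ ∞ ρ
  cζ : ContDiff ℝ ∞ ζ
  cθ : ContDiff ℝ ∞ θ
  supp : ∃ R, ∀ x, R < ‖x‖ → ρ x = 0 ∧ ζ x = 0 ∧ θ x = 0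
  i2 : ∀ x v w, dL L θ x v w = 0
  i3 : ∀ x v w, dL L ζ x v w = θ x v * ζ x w - θ x w * ζ x v
  i4 : ∀ x v, fderiv ℝ ρ x (L x v) = ρ x * θ x v
  i5 : ∀ x v w, ρ x * (fderiv ℝ ζ x v w - fderiv ℝ ζ x w v) =
    fderiv ℝ ρ x v * ζ x w - fderiv ℝ ρ x w * ζ x v
  op : IsOpen U
  ne : U.Nonempty
  nil : ∀ x ∈ U, ρ x ≠ 0 ∧ (∀ v, (L x)^[m + 1] v = 0) ∧ ∃ v, ζ x ((L x)^[m] v) ≠ 0

theorem Lp_iter (α h : ℝ → ℝ) (ζ θ : E → E →L[ℝ] ℝ) (L : E → E →L[ℝ] E) (z W : ℝ × E) (k : ℕ) :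
    (Lp α h ζ θ L z)^[k + 1] W =
      (α z.1 * ζ z.2 ((L z.2)^[k] W.2) + h z.1 * θ z.2 ((L z.2)^[k] W.2), (L z.2)^[k + 1] W.2) := by
  induction k with
  | zero => simp [Lp_apply]
  | succ k ih => rw [Function.iterate_succ_apply', ih, Lp_apply, Function.iterate_succ_apply' _ (k + 1)]

theorem Stage.step [FiniteDimensional ℝ E] {m : ℕ} {L : E → E →L[ℝ] E} {ρ : E → ℝ}
    {ζ θ : E → E →L[ℝ] ℝ} {U : Set E} (S : Stage m L ρ ζ θ U) :
    ∃ L' ρ' ζ' θ' U', Stage (E := ℝ × E) (m + 1) L' ρ' ζ' θ' U' := by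
  obtain ⟨α, h, ha, hb, h0, hs, hid⟩ := exists_ah
  have ha' : ContDiff ℝ ∞ (deriv α) := ha.deriv' (n := ∞)
  have hb' : ContDiff ℝ ∞ (deriv h) := hb.deriv' (n := ∞)
  have hid' : ∀ t, α t * deriv (deriv h) t - deriv (deriv α) t * h t = deriv α t := fun t => by
    have d := (((ha.differentiable (by simp) t).hasDerivAt.mul
      (hb'.differentiable (by simp) t).hasDerivAt).sub
      ((ha'.differentiable (by simp) t).hasDerivAt.mul (hb.differentiable (by simp) t).hasDerivAt)).deriv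
    have e : deriv (fun t => α t * deriv h t - deriv α t * h t) t = _ := d
    simp only [hid] at e
    have e' : deriv α t = _ := e
    linarith
  have hs' : ∀ t, 2 < |t| → deriv α t = 0 ∧ deriv h t = 0 := fun t ht => by
    have := continuous_abs.continuousAt.eventually_const_lt ht
    have e1 : α =ᶠ[𝓝 t] fun _ => 0 := this.mono fun y hy => (hs y hy).1
    have e2 : h =ᶠ[𝓝 t] fun _ => 0 := this.mono fun y hy => (hs y hy).2
    rw [e1.deriv_eq, e2.deriv_eq]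
    simp
  obtain ⟨R, hR⟩ := S.supp
  have hR' : ∀ x, R < ‖x‖ → fderiv ℝ ρ x = 0 := fun x hx => by
    have e1 : ρ =ᶠ[𝓝 x] fun _ => 0 :=
      (continuous_norm.continuousAt.eventually_const_lt hx).mono fun y hy => (hR y hy).1
    rw [e1.fderiv_eq]
    simp
  have hcase : ∀ z : ℝ × E, max 2 R < ‖z‖ → 2 < |z.1| ∨ R < ‖z.2‖ := fun z hz => by
    rw [Prod.norm_def, lt_max_iff, max_lt_iff, max_lt_iff] at hz
    exact hz.imp (fun a => a.1) fun a => a.2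
  have cL := S.good.1
  have cρ' : ContDiff ℝ ∞ (fderiv ℝ ρ) := S.cρ.fderiv_right (m := ∞) (by simp)
  have sym : ∀ x a b, fderiv ℝ (fderiv ℝ ρ) x a b = fderiv ℝ (fderiv ℝ ρ) x b a :=
    fun x a b => (S.cρ.contDiffAt.isSymmSndFDerivAt (by simp; exact two_le)) a b
  have i4' : ∀ x v w, fderiv ℝ (fderiv ℝ ρ) x (L x w) v + fderiv ℝ ρ x (fderiv ℝ L x v w) =
      fderiv ℝ ρ x v * θ x w + ρ x * fderiv ℝ θ x v w := fun x v w => by
    have dl := cL.differentiable (by simp) x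
    have dθ := S.cθ.differentiable (by simp) x
    have e := fd_app (cρ'.differentiable (by simp) x) (dl.clm_apply (differentiableAt_const w)) v
    simp only [S.i4] at e
    rw [fderiv_fun_mul (S.cρ.differentiable (by simp) x) (dθ.clm_apply (differentiableAt_const w)),
      ← fd_const dl, sym x v] at e
    simp only [ContinuousLinearMap.add_apply, ContinuousLinearMap.smul_apply, smul_eq_mul,
      ← fd_const dθ] at e
    linarith
  have fD := fderiv_Lp ha hb S.cζ S.cθ cL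
  have gL : Good (Lp α h ζ θ L) := ⟨contDiff_Lp ha hb S.cζ S.cθ cL, fun z V W => by
    have a := S.i2 z.2 V.2 W.2
    have b := S.i3 z.2 V.2 W.2
    have c := S.good.2 z.2 V.2 W.2
    simp only [dL, map_sub] at a b
    simp only [fD, Lp_apply, Prod.mk_sub_mk, map_sub, Prod.mk_eq_zero]
    refine ⟨?_, by simpa using c⟩
    linear_combination α z.1 * b + h z.1 * a +
      (ζ z.2 V.2 * θ z.2 W.2 - ζ z.2 W.2 * θ z.2 V.2) * hid z.1⟩
  have c2 : ∀ {f : ℝ → ℝ}, ContDiff ℝ ∞ f → ContDiff ℝ ∞ fun t => 2 * f t := fun hf =>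
    contDiff_const.mul hf
  have d2 : ∀ (f : ℝ → ℝ) t, deriv (fun t => 2 * f t) t = 2 * deriv f t := fun f t =>
    deriv_const_mul_field _
  have cr : ContDiff ℝ ∞ fun z : ℝ × E => (α z.1 * ρ z.2) * (α z.1 * ρ z.2) :=
    ((ha.comp contDiff_fst).mul (S.cρ.comp contDiff_snd)).mul
      ((ha.comp contDiff_fst).mul (S.cρ.comp contDiff_snd))
  have dr : ∀ z V : ℝ × E, fderiv ℝ (fun z : ℝ × E => (α z.1 * ρ z.2) * (α z.1 * ρ z.2)) z V =
      2 * (α z.1 * ρ z.2) * (deriv α z.1 * ρ z.2 * V.1 + α z.1 * fderiv ℝ ρ z.2 V.2) := fun z V => by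
    have h1 := (hasF1 ha z).mul (hasF2 S.cρ z)
    have e : fderiv ℝ (fun z : ℝ × E => (α z.1 * ρ z.2) * (α z.1 * ρ z.2)) z = _ := (h1.mul h1).fderiv
    rw [e]
    simp
    ring
  refine ⟨Lp α h ζ θ L, fun z => (α z.1 * ρ z.2) * (α z.1 * ρ z.2), zp α h ρ,
    lift (fun t => 2 * deriv α t) (fun t => 2 * deriv h t) ζ θ, {t | α t ≠ 0} ×ˢ U, gL, ?_, cr,
    contDiff_zp ha hb S.cρ, contDiff_lift (c2 ha') (c2 hb') S.cζ S.cθ, ⟨max 2 R, fun z hz => ?_⟩,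
    fun z V W => ?_, fun z V W => ?_, fun z V => ?_, fun z V W => ?_,
    (isOpen_ne_fun ha.continuous continuous_const).prod S.op, Set.Nonempty.prod ⟨0, h0⟩ S.ne,
    fun z hz => ?_⟩
  · refine (Cpt.prod (cpt_zero (E := ℝ)) S.cpt).perturb ?_ gL ?_
    · have e : (fun z : ℝ × E => (0 : ℝ →L[ℝ] ℝ).prodMap (L z.2)) = Lp 0 0 ζ θ L := by
        funext z
        refine ContinuousLinearMap.ext fun W => ?_
        rw [Lp_apply]
        ext <;> simp
      rw [e]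
      exact contDiff_Lp contDiff_const contDiff_const S.cζ S.cθ cL
    · refine (Metric.isBounded_closedBall (x := (0 : ℝ × E)) (r := max 2 R)).subset fun z hz => ?_
      rw [mem_closedBall_zero_iff]
      by_contra h1
      refine hz (ContinuousLinearMap.ext fun W => ?_)
      rw [ContinuousLinearMap.sub_apply, Lp_apply]
      rcases hcase z (not_le.1 h1) with a | a
      · ext <;> simp [(hs _ a).1, (hs _ a).2]
      · ext <;> simp [(hR _ a).2.1, (hR _ a).2.2]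
  · rcases hcase z hz with a | a
    · simp [zp, lift, (hs _ a).1, (hs' _ a).1, (hs' _ a).2]
    · simp [zp, lift, (hR _ a).1, (hR _ a).2.1, (hR _ a).2.2, hR' _ a]
  · have a := S.i2 z.2 V.2 W.2
    have b := S.i3 z.2 V.2 W.2
    simp only [dL, map_sub] at a b
    simp only [dL, fD, Lp_apply, fderiv_lift (c2 ha') (c2 hb') S.cζ S.cθ, lift_apply, d2,
      Prod.mk_sub_mk, map_sub]
    linear_combination 2 * deriv α z.1 * b + 2 * deriv h z.1 * a +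
      2 * (ζ z.2 V.2 * θ z.2 W.2 - ζ z.2 W.2 * θ z.2 V.2) * hid' z.1
  · have a := i4' z.2 V.2 W.2
    have b := i4' z.2 W.2 V.2
    have c := S.i5 z.2 V.2 W.2
    have d := hid z.1
    simp only [dL, fD, Lp_apply, fderiv_zp ha hb S.cρ, zp_apply, lift_apply, Prod.mk_sub_mk,
      map_sub, S.i4]
    linear_combination α z.1 * h z.1 * (a - b) - α z.1 * α z.1 * c +
      (-ρ z.2 * (θ z.2 V.2 * W.1 - θ z.2 W.2 * V.1) +
        (α z.1 * ζ z.2 V.2 + h z.1 * θ z.2 V.2) * fderiv ℝ ρ z.2 W.2 -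
        (α z.1 * ζ z.2 W.2 + h z.1 * θ z.2 W.2) * fderiv ℝ ρ z.2 V.2 -
        2 * α z.1 * (ζ z.2 V.2 * fderiv ℝ ρ z.2 W.2 - ζ z.2 W.2 * fderiv ℝ ρ z.2 V.2)) * d
  · simp only [dr, Lp_apply, lift_apply, S.i4]
    linear_combination -2 * α z.1 * ρ z.2 * ρ z.2 * θ z.2 V.2 * hid z.1
  · simp only [dr, fderiv_zp ha hb S.cρ, zp_apply, sym z.2 V.2 W.2]
    linear_combination -α z.1 * α z.1 * ρ z.2 * ρ z.2 *
      (V.1 * fderiv ℝ ρ z.2 W.2 - W.1 * fderiv ℝ ρ z.2 V.2) * hid z.1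
  · obtain ⟨a, b, v, c⟩ := S.nil z.2 hz.2
    have a' : α z.1 ≠ 0 := hz.1
    refine ⟨mul_ne_zero (mul_ne_zero a' a) (mul_ne_zero a' a), fun W => ?_, (0, v), ?_⟩
    · rw [Lp_iter, b, Function.iterate_succ_apply', b]
      simp
    · have e := S.i4 z.2 ((L z.2)^[m] v)
      rw [← Function.iterate_succ_apply' (L z.2), b, map_zero] at e
      have e' : θ z.2 ((L z.2)^[m] v) = 0 := (mul_eq_zero.1 e.symm).resolve_left a
      rw [Lp_iter, zp_apply, b, e']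
      simp [a, a', c]

theorem stage_zero : ∃ L ρ ζ θ U, Stage (E := ℝ) 0 L ρ ζ θ U := by
  obtain ⟨α, h, ha, -, h0, hs, -⟩ := exists_ah
  have hd : ∀ x v w, fderiv ℝ (fun x => α x • ContinuousLinearMap.id ℝ ℝ) x v w =
      deriv α x * v * w := fun x v w => by
    rw [((ha.differentiable (by simp) x).hasFDerivAt.smul_const (ContinuousLinearMap.id ℝ ℝ)).fderiv]
    simp
    left
    ring
  refine ⟨fun _ => 0, α, fun x => α x • ContinuousLinearMap.id ℝ ℝ, fun _ => 0, {t | α t ≠ 0},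
    ⟨contDiff_const, nijAt_zero⟩, cpt_zero, ha, ha.smul contDiff_const, contDiff_const,
    ⟨2, fun x hx => by simp [(hs x hx).1]⟩, fun x v w => by simp [dL], fun x v w => by simp [dL],
    fun x v => by simp, fun x v w => ?_, isOpen_ne_fun ha.continuous continuous_const, ⟨0, h0⟩,
    fun x hx => ⟨hx, fun v => by simp, 1, by simpa using hx⟩⟩
  rw [hd, hd]
  simp
  ring

theorem exists_stage (m : ℕ) : ∃ (E : Type) (_ : NormedAddCommGroup E) (_ : NormedSpace ℝ E)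
    (_ : FiniteDimensional ℝ E), Module.finrank ℝ E = m + 1 ∧
      ∃ L ρ ζ θ U, Stage (E := E) m L ρ ζ θ U := by
  induction m with
  | zero => exact ⟨ℝ, _, _, inferInstance, by simp, stage_zero⟩
  | succ m ih =>
    obtain ⟨E, _, _, _, hr, L, ρ, ζ, θ, U, S⟩ := ih
    exact ⟨ℝ × E, _, _, inferInstance, by simp [hr]; ring, S.step⟩

end Pool.Agent.H.MP_17a4b7_gt
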