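import Pool.Agent.H.MP_17a4b7_gt.C

open scoped ContDiff Topology
open Filter Set Polynomial

namespace Pool.Agent.H.MP_17a4b7_gt

/-- `A` is conjugate to the values on an open set of a field that can be cut off -/
def RealOn (E : Type) [NormedAddCommGroup E] [NormedSpace ℝ E] (V : Type) [AddCommGroup V]
    [Module ℝ V] (A : V → V) : Prop :=
  ∃ L : E → E →L[ℝ] E, Cpt L ∧ ∃ U : Set E, IsOpen U ∧ U.Nonempty ∧
    ∀ x ∈ U, ∃ P : V ≃ₗ[ℝ] E, ∀ v, L x (P v) = P (A v)

/-- the same on some coordinate space -/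
def Rl (V : Type) [AddCommGroup V] [Module ℝ V] (A : V → V) : Prop :=
  ∃ n : ℕ, RealOn (Fin n → ℝ) V A

variable {V W : Type} [AddCommGroup V] [Module ℝ V] [AddCommGroup W] [Module ℝ W]

theorem RealOn.equiv {E F : Type} [NormedAddCommGroup E] [NormedSpace ℝ E] [NormedAddCommGroup F]
    [NormedSpace ℝ F] {A : V → V} (h : RealOn F V A) (e : E ≃L[ℝ] F) : RealOn E V A := by
  obtain ⟨L, hL, U, hU, ⟨u, hu⟩, hP⟩ := h
  refine ⟨_, hL.equiv e, e ⁻¹' U, hU.preimage e.continuous, ⟨e.symm u, by simpa using hu⟩,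
    fun x hx => ?_⟩
  obtain ⟨P, hP⟩ := hP (e x) hx
  refine ⟨P.trans e.symm.toLinearEquiv, fun v => ?_⟩
  simp [pull, e.fderiv, hP]

theorem RealOn.rl {E : Type} [NormedAddCommGroup E] [NormedSpace ℝ E] [FiniteDimensional ℝ E]
    {A : V → V} (h : RealOn E V A) : Rl V A :=
  ⟨Module.finrank ℝ E, h.equiv (ContinuousLinearEquiv.ofFinrankEq (by simp))⟩

theorem Rl.congr {A : V → V} {B : W → W} (h : Rl W B) (φ : V ≃ₗ[ℝ] W)
    (hφ : ∀ v, φ (A v) = B (φ v)) : Rl V A := by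
  obtain ⟨n, L, hL, U, hU, hne, hP⟩ := h
  refine ⟨n, L, hL, U, hU, hne, fun x hx => ?_⟩
  obtain ⟨P, hP⟩ := hP x hx
  exact ⟨φ.trans P, fun v => by simp [hP, hφ]⟩

theorem Rl.prod {A : V → V} {B : W → W} (h : Rl V A) (h' : Rl W B) :
    Rl (V × W) fun z => (A z.1, B z.2) := by
  obtain ⟨n, L, hL, U, hU, hne, hP⟩ := h
  obtain ⟨n', L', hL', U', hU', hne', hP'⟩ := h'
  refine RealOn.rl (E := (Fin n → ℝ) × (Fin n' → ℝ))
    ⟨_, hL.prod hL', U ×ˢ U', hU.prod hU', hne.prod hne', fun x hx => ?_⟩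
  obtain ⟨P, hP⟩ := hP x.1 hx.1
  obtain ⟨P', hP'⟩ := hP' x.2 hx.2
  exact ⟨P.prodCongr P', fun v => by simp [hP, hP']⟩

theorem Rl.shift {A : V → V} (h : Rl V A) (c : ℝ) : Rl V fun v => A v + c • v := by
  obtain ⟨n, L, hL, U, hU, hne, hP⟩ := h
  refine ⟨n, _, hL.shift c, U, hU, hne, fun x hx => ?_⟩
  obtain ⟨P, hP⟩ := hP x hx
  exact ⟨P, fun v => by simp [hP]⟩

theorem rl_subsingleton [Subsingleton V] (A : V → V) : Rl V A :=
  ⟨0, _, cpt_zero, univ, isOpen_univ, univ_nonempty, fun _ _ =>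
    ⟨LinearEquiv.ofSubsingleton _ _, fun _ => Subsingleton.elim _ _⟩⟩

theorem rl_pi (ι : Type) [Finite ι] : ∀ (V : ι → Type) [∀ i, AddCommGroup (V i)]
    [∀ i, Module ℝ (V i)] (A : ∀ i, V i → V i), (∀ i, Rl (V i) (A i)) →
      Rl (∀ i, V i) fun f i => A i (f i) := by
  refine Finite.induction_empty_option (P := fun ι => ∀ (V : ι → Type) [∀ i, AddCommGroup (V i)]
    [∀ i, Module ℝ (V i)] (A : ∀ i, V i → V i), (∀ i, Rl (V i) (A i)) →
      Rl (∀ i, V i) fun f i => A i (f i)) ?_ ?_ ?_ ι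
  · intro α β e ih V _ _ A hA
    refine (ih (fun a => V (e a)) (fun a => A (e a)) fun a => hA _).congr
      (LinearEquiv.piCongrLeft ℝ V e).symm fun v => rfl
  · intro V _ _ A _
    exact rl_subsingleton _
  · intro α _ ih V _ _ A hA
    exact ((hA none).prod (ih (fun a => V (some a)) (fun a => A (some a)) fun a => hA _)).congr
      (LinearEquiv.piOptionEquivProd ℝ) fun v => rfl

theorem li_iter (N : V →ₗ[ℝ] V) (v : V) (m : ℕ) (h0 : ∀ v, N^[m + 1] v = 0) (h1 : N^[m] v ≠ 0) :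
    LinearIndependent ℝ fun i : Fin (m + 1) => N^[i] v := by
  have hz : ∀ k, m + 1 ≤ k → N^[k] v = 0 := fun k hk => by
    obtain ⟨j, rfl⟩ := Nat.exists_eq_add_of_le hk
    rw [Function.iterate_add_apply, h0]
  rw [Fintype.linearIndependent_iff]
  intro g hg
  suffices h : ∀ k, ∀ i : Fin (m + 1), i.1 = k → g i = 0 from fun i => h _ i rfl
  intro k
  induction k using Nat.strong_induction_on with
  | _ k ih =>
    intro i hi
    have e := congrArg (N ^ (m - k)) hg
    rw [map_sum, map_zero, Finset.sum_eq_single i] at e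
    · rw [map_smul, Module.End.pow_apply, ← Function.iterate_add_apply,
        show m - k + i = m by omega] at e
      exact (smul_eq_zero.1 e).resolve_right h1
    · intro j _ hj
      have hj' : j.1 ≠ i.1 := fun h => hj (Fin.ext h)
      rcases lt_or_gt_of_ne hj' with h | h
      · rw [ih j (by omega) j rfl]
        simp
      · rw [map_smul, Module.End.pow_apply, ← Function.iterate_add_apply, hz _ (by omega), smul_zero]
    · simp

theorem rl_block (N : V →ₗ[ℝ] V) (v : V) (m : ℕ) (hr : Module.finrank ℝ V = m + 1)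
    (h0 : ∀ v, N^[m + 1] v = 0) (h1 : N^[m] v ≠ 0) : Rl V N := by
  obtain ⟨E, _, _, _, hE, L, ρ, ζ, θ, U, S⟩ := exists_stage m
  refine RealOn.rl (E := E) ⟨L, S.cpt, U, S.op, S.ne, fun x hx => ?_⟩
  obtain ⟨-, a, w, b⟩ := S.nil x hx
  have b' : (L x)^[m] w ≠ 0 := fun h => b (by rw [h, map_zero])
  let b1 := basisOfLinearIndependentOfCardEqFinrank (li_iter N v m h0 h1) (by simp [hr])
  let b2 := basisOfLinearIndependentOfCardEqFinrank (li_iter (L x : E →ₗ[ℝ] E) w m a b')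
    (by simp [hE])
  have e1 : ∀ i, b1 i = N^[i] v := fun i => by simp [b1]
  have e2 : ∀ i, b2 i = (L x)^[i] w := fun i => by simp [b2]
  let P := b1.equiv b2 (Equiv.refl _)
  have hP : ∀ k, k ≤ m + 1 → P (N^[k] v) = (L x)^[k] w := fun k hk => by
    rcases hk.lt_or_eq with h | rfl
    · rw [← e1 ⟨k, h⟩, ← e2 ⟨k, h⟩]
      simp [P]
    · rw [h0, a, map_zero]
  have : (L x : E →ₗ[ℝ] E) ∘ₗ (P : V →ₗ[ℝ] E) = (P : V →ₗ[ℝ] E) ∘ₗ N := b1.ext fun i => by
    simp only [LinearMap.comp_apply, LinearEquiv.coe_coe, ContinuousLinearMap.coe_coe, e1]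
    rw [← Function.iterate_succ_apply' N, hP _ (by omega), hP _ (by omega),
      Function.iterate_succ_apply']
  exact ⟨P, fun u => LinearMap.congr_fun this u⟩

theorem rl_quot (p : ℝ[X]) (hp : Irreducible p) (r : ℝ) (hr : p.IsRoot r) (e : ℕ) :
    Rl (ℝ[X] ⧸ Ideal.span {p ^ e}) fun v => (X : ℝ[X]) • v := by
  have ha : Associated (X - C r) p :=
    (irreducible_X_sub_C r).associated_of_dvd hp (dvd_iff_isRoot.2 hr)
  have hd : p.natDegree = 1 := by rw [← natDegree_eq_of_degree_eq (degree_eq_degree_of_associated ha)]; simp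
  rcases e with _ | m
  · haveI : Subsingleton (ℝ[X] ⧸ Ideal.span {p ^ 0}) := Ideal.Quotient.subsingleton_iff.2 (by simp)
    exact rl_subsingleton _
  let N : (ℝ[X] ⧸ Ideal.span {p ^ (m + 1)}) →ₗ[ℝ] (ℝ[X] ⧸ Ideal.span {p ^ (m + 1)}) :=
    LinearMap.mulLeft ℝ (Ideal.Quotient.mk _ (X - C r))
  have hN : ∀ k v, N^[k] v = Ideal.Quotient.mk _ ((X - C r) ^ k) * v := fun k v => by
    induction k with
    | zero => simp
    | succ k ih =>
      rw [Function.iterate_succ_apply', ih, pow_succ' (X - C r), map_mul (Ideal.Quotient.mk _), mul_assoc]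
      rfl
  have := (rl_block N 1 m (by rw [finrank_quotient_span_eq_natDegree, natDegree_pow, hd, mul_one])
    (fun v => by
      rw [hN, Ideal.Quotient.eq_zero_iff_mem.2 (Ideal.mem_span_singleton.2 (ha.pow_pow (n := m + 1)).symm.dvd),
        zero_mul]) (by
      rw [hN, mul_one, Ne, Ideal.Quotient.eq_zero_iff_mem, Ideal.mem_span_singleton]
      intro h
      have := natDegree_le_of_dvd h (pow_ne_zero _ (X_sub_C_ne_zero r))
      simp [natDegree_pow, hd] at this)).shift r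
  refine this.congr (LinearEquiv.refl _ _) fun v => ?_
  obtain ⟨f, rfl⟩ := Ideal.Quotient.mk_surjective v
  show Ideal.Quotient.mk _ (X * f) = Ideal.Quotient.mk _ (X - C r) * Ideal.Quotient.mk _ f +
    Ideal.Quotient.mk _ (r • f)
  rw [← map_mul, ← map_add, smul_eq_C_mul]
  congr 1
  ring

theorem rl_of_real [FiniteDimensional ℝ V] (f : V →ₗ[ℝ] V)
    (hf : ∀ μ : ℂ, aeval μ f.charpoly = 0 → μ.im = 0) : Rl V f := by
  classical
  obtain ⟨ι, _, p, hp, e, ⟨φ⟩⟩ := Module.equiv_directSum_of_isTorsion (R := ℝ[X])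
    (M := Module.AEval' f) (Module.AEval.isTorsion_of_finiteDimensional ℝ V f)
  let ψ := φ.trans (DirectSum.linearEquivFunOnFintype ℝ[X] ι fun i => ℝ[X] ⧸ ℝ[X] ∙ p i ^ e i)
  have h1 : ∀ i, Rl (ℝ[X] ⧸ Ideal.span {p i ^ e i}) fun v => (X : ℝ[X]) • v := fun i => by
    rcases he : e i with _ | m
    · haveI : Subsingleton (ℝ[X] ⧸ Ideal.span {p i ^ 0}) := Ideal.Quotient.subsingleton_iff.2 (by simp)
      exact rl_subsingleton _
    have h2 : ∀ u : Module.AEval' f, f.charpoly • u = 0 := fun u => by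
      obtain ⟨u, rfl⟩ := (Module.AEval'.of f).surjective u
      rw [← Module.AEval.of_aeval_smul, LinearMap.aeval_self_charpoly, zero_smul, map_zero]
    have h3 := congrFun (congrArg ψ (h2 (ψ.symm (Pi.single i (Submodule.Quotient.mk 1))))) i
    rw [map_smul, map_zero, ψ.apply_symm_apply, Pi.smul_apply, Pi.single_eq_same, Pi.zero_apply,
      ← Submodule.Quotient.mk_smul, Submodule.Quotient.mk_eq_zero, smul_eq_mul, mul_one] at h3
    have h4 : p i ∣ f.charpoly :=
      (dvd_pow_self _ (by omega)).trans (Ideal.mem_span_singleton.1 h3)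
    obtain ⟨μ, hμ⟩ := IsAlgClosed.exists_aeval_eq_zero ℂ (p i) (degree_pos_of_irreducible (hp i)).ne'
    have h5 := hf μ (aeval_eq_zero_of_dvd_aeval_eq_zero h4 hμ)
    have h6 : μ = algebraMap ℝ ℂ μ.re := Complex.ext (by simp) (by simp [h5])
    rw [h6, aeval_algebraMap_apply, map_eq_zero, coe_aeval_eq_eval] at hμ
    exact rl_quot _ (hp i) _ hμ _
  refine (rl_pi ι (fun i => ℝ[X] ⧸ Ideal.span {p i ^ e i}) _ h1).congr
    ((Module.AEval'.of f).trans (ψ.restrictScalars ℝ)) fun v => ?_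
  show ψ (Module.AEval'.of f (f v)) = (X : ℝ[X]) • ψ (Module.AEval'.of f v)
  rw [← map_smul, Module.AEval'.X_smul_of]

theorem Good.torsion {E : Type*} [NormedAddCommGroup E] [NormedSpace ℝ E] {L : E → E →L[ℝ] E}
    (h : Good L) {v w : E → E} (hv : ContDiff ℝ ∞ v) (hw : ContDiff ℝ ∞ w) (x : E) :
    VectorField.lieBracket ℝ (fun y => L y (v y)) (fun y => L y (w y)) x -
      L x (VectorField.lieBracket ℝ (fun y => L y (v y)) w x +
        VectorField.lieBracket ℝ v (fun y => L y (w y)) x) +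
      L x (L x (VectorField.lieBracket ℝ v w x)) = 0 := by
  have dL := h.1.differentiable (by simp) x
  have dv := hv.differentiable (by simp) x
  have dw := hw.differentiable (by simp) x
  have := h.2 x (v x) (w x)
  simp only [VectorField.lieBracket, fd_app dL dv, fd_app dL dw, map_add, map_sub] at this ⊢
  linear_combination (norm := module) this

theorem exists_field {E : Type} [NormedAddCommGroup E] [NormedSpace ℝ E] [FiniteDimensional ℝ E]
    (f : E →ₗ[ℝ] E) (hf : ∀ μ : ℂ, aeval μ f.charpoly = 0 → μ.im = 0) :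
    ∃ L : E → E →L[ℝ] E, Good L ∧ HasCompactSupport L ∧ ∃ U : Set E, IsOpen U ∧ IsConnected U ∧
      ∀ x ∈ U, ∃ P : E ≃ₗ[ℝ] E, ∀ v, L x (P v) = P (f v) := by
  obtain ⟨n, h⟩ := rl_of_real f hf
  have hn : Module.finrank ℝ E = Module.finrank ℝ (Fin n → ℝ) := by
    obtain ⟨L, -, U, -, ⟨u, hu⟩, hP⟩ := h
    obtain ⟨P, -⟩ := hP u hu
    exact P.finrank_eq
  obtain ⟨L, hL, U, hU, ⟨u, hu⟩, hP⟩ := h.equiv (ContinuousLinearEquiv.ofFinrankEq hn)
  obtain ⟨r, hr, hb⟩ := Metric.isOpen_iff.1 hU u hu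
  obtain ⟨K, hK, hs, he⟩ := hL _ (Metric.isBounded_ball (x := u) (r := r))
  haveI := FiniteDimensional.proper_real E
  refine ⟨K, hK, hs.isCompact_closure, Metric.ball u r, Metric.isOpen_ball,
    (convex_ball u r).isConnected ⟨u, Metric.mem_ball_self hr⟩, fun x hx => ?_⟩
  rw [he hx]
  exact hP x (hb hx)

end Pool.Agent.H.MP_17a4b7_gt
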